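import Pool.Agent.H59.Des.Final

/-!
# For every `k ≥ 3` the `2-(v,k,1)` designs are f-universal
-/

open Finset
open scoped Pointwise

namespace Pool.Agent.Results.MP_3d715f_co.FUniversal

universe u

/-- The group of all permutations of the point set `Fin v` that map the set of blocks `𝓑` onto
itself. -/
def autGroup {v : ℕ} (𝓑 : Finset (Finset (Fin v))) : Subgroup (Equiv.Perm (Fin v)) where
  carrier := {σ | 𝓑.image (fun B => B.image σ) = 𝓑}
  one_mem' := by
    rw [Set.mem_ofPred_eq]
    have h : (fun B : Finset (Fin v) => B.image ((1 : Equiv.Perm (Fin v)) : Fin v → Fin v))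
        = id := by
      funext B
      exact image_id
    rw [h, image_id]
  mul_mem' := by
    intro σ τ hσ hτ
    rw [Set.mem_ofPred_eq] at hσ hτ ⊢
    have h : (fun B : Finset (Fin v) => B.image ((σ * τ : Equiv.Perm (Fin v)) : Fin v → Fin v))
        = (fun B => B.image σ) ∘ (fun B => B.image τ) := by
      funext B
      rw [Function.comp_apply, image_image]
      rfl
    rw [h, ← image_image, hτ, hσ]
  inv_mem' := by
    intro σ hσ
    rw [Set.mem_ofPred_eq] at hσ ⊢
    conv_lhs => rw [← hσ]
    rw [image_image]
    have h : ((fun B : Finset (Fin v) => B.image ((σ⁻¹ : Equiv.Perm (Fin v)) : Fin v → Fin v))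
        ∘ (fun B => B.image σ)) = id := by
      funext B
      rw [Function.comp_apply, image_image]
      have h2 : (((σ⁻¹ : Equiv.Perm (Fin v)) : Fin v → Fin v) ∘ σ) = id := by
        funext x
        exact σ.symm_apply_apply x
      rw [h2, image_id]
      rfl
    rw [h, image_id]

lemma mem_autGroup {v : ℕ} {𝓑 : Finset (Finset (Fin v))} {σ : Equiv.Perm (Fin v)} :
    σ ∈ autGroup 𝓑 ↔ σ • 𝓑 = 𝓑 := Iff.rfl

/-- For every `k ≥ 3` and every finite group `G` there is a nontrivial `2-(v,k,1)` design with
automorphism group isomorphic to `G`. -/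
theorem result (k : ℕ) (hk : 3 ≤ k) (G : Type u) [Group G] [Finite G] :
    ∃ (v : ℕ) (𝓑 : Finset (Finset (Fin v))), k < v ∧ (∀ B ∈ 𝓑, B.card = k) ∧
      (∀ x y : Fin v, x ≠ y → ∃! B, B ∈ 𝓑 ∧ x ∈ B ∧ y ∈ B) ∧
      Nonempty (G ≃* autGroup 𝓑) := by
  obtain ⟨P, hP, hPd, D, φ, hkP, hD, hφ, hτ⟩ :=
    Pool.Agent.H59.Des.exists_design k hk G
  let e : P ≃ Fin (Fintype.card P) := Fintype.equivFin P
  refine ⟨Fintype.card P, D.image (fun B => B.image e), hkP, ?_, ?_, ?_⟩
  · intro B' hB'
    obtain ⟨B, hB, rfl⟩ := mem_image.1 hB'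
    rw [card_image_of_injective _ e.injective, hD.card_eq B hB]
  · intro x y hxy
    obtain ⟨B, hB, h1, h2⟩ := hD.ex (e.symm x) (e.symm y) (fun h => hxy (e.symm.injective h))
    refine ⟨B.image e, ⟨mem_image_of_mem _ hB, ?_, ?_⟩, ?_⟩
    · exact mem_image.2 ⟨_, h1, e.apply_symm_apply x⟩
    · exact mem_image.2 ⟨_, h2, e.apply_symm_apply y⟩
    · rintro B₁' ⟨hB₁', h3, h4⟩
      obtain ⟨B₁, hB₁, rfl⟩ := mem_image.1 hB₁'
      obtain ⟨x', hx', rfl⟩ := mem_image.1 h3
      obtain ⟨y', hy', rfl⟩ := mem_image.1 h4
      rw [e.symm_apply_apply] at h1 h2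
      rw [hD.uniq B₁ hB₁ B hB x' y' (fun h => hxy (by rw [h])) hx' hy' h1 h2]
  · let ψ : G →* Equiv.Perm (Fin (Fintype.card P)) := e.permCongrHom.toMonoidHom.comp φ
    have hψ : Function.Injective ψ := e.permCongrHom.injective.comp hφ
    have hrange : ψ.range = autGroup (D.image (fun B => B.image e)) := by
      ext σ
      rw [MonoidHom.mem_range]
      set τ : Equiv.Perm P := e.permCongrHom.symm σ with hτdef
      have hστ : σ = e.permCongrHom τ := by
        rw [hτdef, MulEquiv.apply_symm_apply]
      have hσe : ∀ p : P, σ (e p) = e (τ p) := by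
        intro p
        rw [hστ, Equiv.permCongrHom_coe, Equiv.permCongr_apply, e.symm_apply_apply]
      have hblk : ∀ B : Finset P, (B.image e).image σ = (B.image τ).image e := by
        intro B
        rw [image_image, image_image]
        apply image_congr
        intro p _
        exact hσe p
      have hD' : (D.image (fun B => B.image e)).image (fun B => B.image σ)
          = (τ • D).image (fun B => B.image e) := by
        have h5 : τ • D = D.image (fun B => B.image τ) := rfl
        rw [h5, image_image, image_image]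
        apply image_congr
        intro B _
        exact hblk B
      have hinj : Function.Injective (fun B : Finset P => B.image e) :=
        image_injective e.injective
      have h6 : σ ∈ autGroup (D.image (fun B => B.image e)) ↔ τ • D = D := by
        change (D.image (fun B => B.image e)).image (fun B => B.image σ)
          = D.image (fun B => B.image e) ↔ _
        rw [hD']
        exact (image_injective hinj).eq_iff
      rw [h6, hτ τ]
      constructor
      · rintro ⟨g, hg⟩
        refine ⟨g, ?_⟩
        rw [hτdef, ← hg]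
        change e.permCongrHom.symm (e.permCongrHom (φ g)) = φ g
        rw [MulEquiv.symm_apply_apply]
      · rintro ⟨g, hg⟩
        refine ⟨g, ?_⟩
        rw [hστ, hg]
        rfl
    exact ⟨(MonoidHom.ofInjective hψ).trans (MulEquiv.subgroupCongr hrange)⟩

end Pool.Agent.Results.MP_3d715f_co.FUniversal
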